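import Pool.Agent.Helper21.BU.Bas2
import Pool.Agent.Helper68.ZS.HNP

/-!
# BU, first half of block BU2: bases of the forms of degree `δ` modulo `I`
-/

set_option autoImplicit false

namespace Pool.Agent.SQ

open Module MvPolynomial

universe u

private theorem sum_mns21 {R : Type*} [CommSemiring R] {N d : ℕ} (p : MvPolynomial (Fin (N + 1)) R)
    (hp : p.IsHomogeneous d) : ∑ μ : Mns N d, monomial μ.1 (coeff μ.1 p) = p :=
  congrFun (tfrm_coeff (fun _ : Fin 1 => p) fun _ => hp) 0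

private theorem mkC21 {k : Type u} [Field k] {N : ℕ} (I : Ideal (MvPolynomial (Fin (N + 1)) k)) (a : k)
    (p : MvPolynomial (Fin (N + 1)) k) : Ideal.Quotient.mk I (C a * p) = a • Ideal.Quotient.mk I p := by
  rw [← smul_eq_C_mul]
  rfl

section

variable {k : Type u} [Field k] {N : ℕ} (I : Ideal (MvPolynomial (Fin (N + 1)) k))

theorem exists_bas (δ : ℕ) : Nonempty (Bas I δ (hilb I δ)) := by
  classical
  have hfd : FiniteDimensional k (homogeneousSubmodule (Fin (N + 1)) k δ) := ZS.fd_hom δ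
  let H : Submodule k (MvPolynomial (Fin (N + 1)) k ⧸ I) :=
    (homogeneousSubmodule (Fin (N + 1)) k δ).map (Ideal.Quotient.mkₐ k I).toLinearMap
  have hH : FiniteDimensional k H := inferInstance
  let b0 : Basis (Fin (hilb I δ)) k H := finBasis k H
  have h1 : ∀ b, ∃ B : MvPolynomial (Fin (N + 1)) k, B.IsHomogeneous δ ∧ Ideal.Quotient.mk I B = (b0 b : MvPolynomial (Fin (N + 1)) k ⧸ I) := by
    intro b
    obtain ⟨B, hB, hB2⟩ := (b0 b).2
    exact ⟨B, hB, hB2⟩
  choose B hB hB2 using h1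
  have hm : ∀ μ : Mns N δ, Ideal.Quotient.mk I (monomial μ.1 (1 : k)) ∈ H := by
    intro μ
    refine ⟨monomial μ.1 (1 : k), ?_, rfl⟩
    refine isHomogeneous_monomial _ ?_
    have := μ.2
    rw [Finset.mem_finsuppAntidiag] at this
    rw [Finsupp.degree_eq_sum]
    exact this.1
  refine ⟨⟨B, fun μ b => b0.repr ⟨_, hm μ⟩ b, hB, ?_, ?_⟩⟩
  · have h2 := b0.linearIndependent.map' H.subtype (Submodule.ker_subtype H)
    have h3 : (fun b => Ideal.Quotient.mk I (B b)) = H.subtype ∘ b0 := by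
      funext b
      exact hB2 b
    rw [h3]
    exact h2
  · intro μ
    rw [← Ideal.Quotient.eq_zero_iff_mem, map_sub, map_sum, sub_eq_zero]
    have h2 := congrArg Subtype.val (b0.sum_repr ⟨_, hm μ⟩)
    rw [Submodule.coe_sum] at h2
    refine Eq.trans h2.symm (Finset.sum_congr rfl fun b _ => ?_)
    rw [mkC21, hB2 b, Submodule.coe_smul]

variable {I} {δ D : ℕ} (𝔅 : Bas I δ D)

private theorem crd_add21 {R : Type*} [CommRing R] [Algebra k R] (p p' : MvPolynomial (Fin (N + 1)) R) :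
    𝔅.crd (p + p') = 𝔅.crd p + 𝔅.crd p' := by
  funext b
  unfold Bas.crd
  rw [Pi.add_apply, ← Finset.sum_add_distrib]
  refine Finset.sum_congr rfl fun μ _ => ?_
  rw [coeff_add, mul_add]

private theorem crd_smul21 {R : Type*} [CommRing R] [Algebra k R] (a : R) (p : MvPolynomial (Fin (N + 1)) R) :
    𝔅.crd (C a * p) = a • 𝔅.crd p := by
  funext b
  unfold Bas.crd
  rw [Pi.smul_apply, Finset.smul_sum]
  refine Finset.sum_congr rfl fun μ _ => ?_
  rw [coeff_C_mul, smul_eq_mul]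
  ring

private theorem crd_zero21 {R : Type*} [CommRing R] [Algebra k R] :
    𝔅.crd (0 : MvPolynomial (Fin (N + 1)) R) = 0 := by
  funext b
  unfold Bas.crd
  refine Finset.sum_eq_zero fun μ _ => ?_
  rw [coeff_zero, mul_zero]

private theorem crd_sum21 {R : Type*} [CommRing R] [Algebra k R] {ι : Type*} (s : Finset ι)
    (p : ι → MvPolynomial (Fin (N + 1)) R) : 𝔅.crd (∑ i ∈ s, p i) = ∑ i ∈ s, 𝔅.crd (p i) := by
  classical
  induction s using Finset.induction_on with
  | empty => rw [Finset.sum_empty, Finset.sum_empty, crd_zero21]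
  | insert i s hi ih => rw [Finset.sum_insert hi, Finset.sum_insert hi, crd_add21, ih]

theorem Bas.crd_sub (p : MvPolynomial (Fin (N + 1)) k) (hp : p.IsHomogeneous δ) :
    p - ∑ b, C (𝔅.crd p b) * 𝔅.B b ∈ I := by
  have h1 : p - ∑ b, C (𝔅.crd p b) * 𝔅.B b =
      ∑ μ : Mns N δ, C (coeff μ.1 p) * (monomial μ.1 (1 : k) - ∑ b, C (𝔅.κ μ b) * 𝔅.B b) := by
    simp only [mul_sub, Finset.sum_sub_distrib]
    congr 1
    · conv_lhs => rw [← sum_mns21 p hp]
      refine Finset.sum_congr rfl fun μ _ => ?_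
      rw [C_mul_monomial, mul_one]
    · simp only [Finset.mul_sum]
      rw [Finset.sum_comm]
      refine Finset.sum_congr rfl fun b _ => ?_
      unfold Bas.crd
      rw [map_sum, Finset.sum_mul]
      refine Finset.sum_congr rfl fun μ _ => ?_
      rw [map_mul, Algebra.algebraMap_self, RingHom.id_apply]
      ring
  rw [h1]
  exact Ideal.sum_mem _ fun μ _ => Ideal.mul_mem_left _ _ (𝔅.red μ)

/-- the form with the coordinates `u` -/
theorem Bas.frm_mem (u : Fin D → k) : (∑ b, C (u b) * 𝔅.B b).IsHomogeneous δ ∧ (∑ b, C (u b) * 𝔅.B b ∈ I → u = 0) := by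
  constructor
  · refine IsHomogeneous.sum _ _ _ fun b _ => ?_
    have := (isHomogeneous_C (Fin (N + 1)) (u b)).mul (𝔅.hom b)
    rwa [zero_add] at this
  · intro h
    rw [← Ideal.Quotient.eq_zero_iff_mem, map_sum] at h
    have h1 := Fintype.linearIndependent_iff.1 𝔅.ind u (by
      rw [← h]
      exact Finset.sum_congr rfl fun b _ => (mkC21 I _ _).symm)
    exact funext h1

theorem Bas.crd_mem (p : MvPolynomial (Fin (N + 1)) k) (hp : p.IsHomogeneous δ) : p ∈ I ↔ 𝔅.crd p = 0 := by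
  have h := 𝔅.crd_sub p hp
  constructor
  · intro h1
    refine (𝔅.frm_mem (𝔅.crd p)).2 ?_
    have h2 := I.sub_mem h1 h
    rwa [sub_sub_cancel] at h2
  · intro h1
    rw [h1] at h
    simpa using h

theorem Bas.crd_li {R : ℕ} (p : Fin R → MvPolynomial (Fin (N + 1)) k) (hp : ∀ t, (p t).IsHomogeneous δ) :
    (LinearIndependent k fun t => Ideal.Quotient.mk I (p t)) ↔ LinearIndependent k fun t => 𝔅.crd (p t) := by
  have h1 : ∀ c : Fin R → k, ∑ t, c t • Ideal.Quotient.mk I (p t) = 0 ↔ ∑ t, c t • 𝔅.crd (p t) = 0 := by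
    intro c
    have h2 : (∑ t, C (c t) * p t).IsHomogeneous δ := by
      refine IsHomogeneous.sum _ _ _ fun t _ => ?_
      have := (isHomogeneous_C (Fin (N + 1)) (c t)).mul (hp t)
      rwa [zero_add] at this
    have h3 := 𝔅.crd_mem _ h2
    rw [crd_sum21] at h3
    simp only [crd_smul21] at h3
    rw [← h3, ← Ideal.Quotient.eq_zero_iff_mem, map_sum]
    exact Eq.congr_left (Finset.sum_congr rfl fun t _ => (mkC21 I _ _).symm)
  rw [Fintype.linearIndependent_iff, Fintype.linearIndependent_iff]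
  exact forall_congr' fun c => by rw [h1 c]

include 𝔅 in
theorem Bas.card : D = hilb I δ := by
  have hfd : FiniteDimensional k (homogeneousSubmodule (Fin (N + 1)) k δ) := ZS.fd_hom δ
  have h1 : Submodule.span k (Set.range fun b => Ideal.Quotient.mk I (𝔅.B b)) =
      (homogeneousSubmodule (Fin (N + 1)) k δ).map (Ideal.Quotient.mkₐ k I).toLinearMap := by
    refine le_antisymm (Submodule.span_le.2 ?_) ?_
    · rintro _ ⟨b, rfl⟩
      exact ⟨𝔅.B b, 𝔅.hom b, rfl⟩
    · rintro _ ⟨p, hp, rfl⟩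
      have h2 := 𝔅.crd_sub p hp
      rw [← Ideal.Quotient.eq_zero_iff_mem, map_sub, map_sum, sub_eq_zero] at h2
      have h3 : (Ideal.Quotient.mkₐ k I).toLinearMap p = Ideal.Quotient.mk I p := rfl
      rw [h3, h2]
      refine Submodule.sum_mem _ fun b _ => ?_
      rw [mkC21]
      exact Submodule.smul_mem _ _ (Submodule.subset_span ⟨b, rfl⟩)
  unfold hilb
  rw [← h1, finrank_span_eq_card 𝔅.ind, Fintype.card_fin]

/-- the value of a form over a field `Λ` between `k` and `K` at a zero of `I` -/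
theorem Bas.crd_eval {Λ K : Type u} [Field Λ] [Field K] [Algebra k Λ] [Algebra k K] [Algebra Λ K] [IsScalarTower k Λ K]
    (ξ : Fin (N + 1) → K) (hξ : ∀ p ∈ I, aeval ξ p = 0) (p : MvPolynomial (Fin (N + 1)) Λ) (hp : p.IsHomogeneous δ) :
    aeval ξ p = ∑ b, 𝔅.crd p b • aeval ξ (𝔅.B b) := by
  have h1 : ∀ μ : Mns N δ, aeval ξ (monomial μ.1 (1 : k)) = ∑ b, algebraMap k K (𝔅.κ μ b) * aeval ξ (𝔅.B b) := by
    intro μ
    have h2 := hξ _ (𝔅.red μ)
    rw [map_sub, map_sum, sub_eq_zero] at h2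
    rw [h2]
    refine Finset.sum_congr rfl fun b _ => ?_
    rw [map_mul, aeval_C]
  have h2 : ∀ μ : Mns N δ, aeval ξ (monomial μ.1 (coeff μ.1 p)) =
      algebraMap Λ K (coeff μ.1 p) * aeval ξ (monomial μ.1 (1 : k)) := by
    intro μ
    rw [aeval_monomial, aeval_monomial, map_one, one_mul]
  conv_lhs => rw [← sum_mns21 p hp]
  rw [map_sum]
  simp only [h2, h1, Finset.mul_sum]
  rw [Finset.sum_comm]
  refine Finset.sum_congr rfl fun b _ => ?_
  unfold Bas.crd
  rw [Finset.sum_smul]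
  refine Finset.sum_congr rfl fun μ _ => ?_
  rw [Algebra.smul_def, map_mul, ← IsScalarTower.algebraMap_apply k Λ K]
  ring

end

end Pool.Agent.SQ
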