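import Pool.Agent.Helper68.BU.Defs

/-!
# BU, second half of block BU2: forms with given coefficients, coordinates of products
-/

set_option autoImplicit false

namespace Pool.Agent.SQ

open Module MvPolynomial

universe u

private theorem mns21 {N d : ℕ} (μ : Fin (N + 1) →₀ ℕ) :
    μ ∈ Finset.finsuppAntidiag (Finset.univ : Finset (Fin (N + 1))) d ↔ μ.degree = d := by
  rw [Finset.mem_finsuppAntidiag, Finsupp.degree_eq_sum]
  exact ⟨fun h => h.1, fun h => ⟨h, Finset.subset_univ _⟩⟩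

theorem tfrm_hom {R : Type*} [CommSemiring R] {N d q : ℕ} (c : Fin q × Mns N d → R) (i : Fin q) :
    (tfrm c i).IsHomogeneous d :=
  IsHomogeneous.sum _ _ _ fun μ _ => isHomogeneous_monomial _ ((mns21 μ.1).1 μ.2)

theorem tfrm_coeff {R : Type*} [CommSemiring R] {N d q : ℕ} (f : Fin q → MvPolynomial (Fin (N + 1)) R)
    (hf : ∀ i, (f i).IsHomogeneous d) : tfrm (fun p : Fin q × Mns N d => coeff p.2.1 (f p.1)) = f := by
  classical
  funext i
  ext ν
  unfold tfrm
  rw [coeff_sum]
  simp only [coeff_monomial]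
  by_cases h : ν.degree = d
  · rw [Finset.sum_eq_single (⟨ν, (mns21 ν).2 h⟩ : Mns N d)]
    · rw [if_pos rfl]
    · intro μ _ hμ
      rw [if_neg]
      intro h'
      exact hμ (Subtype.ext h')
    · intro h'
      exact absurd (Finset.mem_univ _) h'
  · rw [(hf i).coeff_eq_zero h]
    refine Finset.sum_eq_zero fun μ _ => ?_
    rw [if_neg]
    intro h'
    exact h (by rw [← h']; exact (mns21 μ.1).1 μ.2)

theorem pol_hom {R : Type*} [CommRing R] {n N d m : ℕ} (φ : Fml n N) (hφ : φ.deg d m)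
    (f : Fin (n + 1) → MvPolynomial (Fin (N + 1)) R) (hf : ∀ i, (f i).IsHomogeneous d) (t : Fin φ.R) :
    (φ.pol f t).IsHomogeneous (d * m) := by
  unfold Fml.pol
  rw [← hφ t, Finset.mul_sum]
  refine IsHomogeneous.mul (IsHomogeneous.prod _ _ _ fun i _ => (hf i).pow _) (isHomogeneous_monomial _ ?_)
  rw [Finsupp.degree_eq_sum]

theorem tfrm_map {R R' : Type*} [CommSemiring R] [CommSemiring R'] {N d q : ℕ} (φ : R →+* R')
    (c : Fin q × Mns N d → R) (i : Fin q) : MvPolynomial.map φ (tfrm c i) = tfrm (fun p => φ (c p)) i := by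
  unfold tfrm
  rw [map_sum]
  exact Finset.sum_congr rfl fun μ _ => map_monomial _ _ _

theorem pol_map {R R' : Type*} [CommRing R] [CommRing R'] {n N : ℕ} (φ : Fml n N) (ψ : R →+* R')
    (f : Fin (n + 1) → MvPolynomial (Fin (N + 1)) R) (t : Fin φ.R) :
    MvPolynomial.map ψ (φ.pol f t) = φ.pol (fun i => MvPolynomial.map ψ (f i)) t := by
  unfold Fml.pol
  rw [map_mul, map_prod, map_monomial, map_one]
  simp only [map_pow]

section

variable {k : Type u} [Field k] {N : ℕ} {I : Ideal (MvPolynomial (Fin (N + 1)) k)} {δ D : ℕ} (𝔅 : Bas I δ D)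

/-- naturality -/
theorem Bas.crd_map {R R' : Type*} [CommRing R] [CommRing R'] [Algebra k R] [Algebra k R'] (φ : R →ₐ[k] R')
    (p : MvPolynomial (Fin (N + 1)) R) (b : Fin D) : 𝔅.crd (MvPolynomial.map φ.toRingHom p) b = φ (𝔅.crd p b) := by
  unfold Bas.crd
  rw [map_sum]
  refine Finset.sum_congr rfl fun μ _ => ?_
  rw [map_mul, AlgHom.commutes, coeff_map]
  rfl

/-- the coordinates of the products are polynomials in the coefficients -/
theorem Bas.exists_psi {n d q : ℕ} (φ : Fml n N) (j : Fin (n + 1) → Fin q) (t : Fin φ.R) (b : Fin D) :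
    ∃ Ψ : MvPolynomial (Fin q × Mns N d) k, ∀ {R : Type u} [CommRing R] [Algebra k R] (c : Fin q × Mns N d → R),
      aeval c Ψ = 𝔅.crd (φ.pol (fun i => tfrm c (j i)) t) b := by
  refine ⟨𝔅.crd (φ.pol (fun i => tfrm (X : Fin q × Mns N d → MvPolynomial (Fin q × Mns N d) k) (j i)) t) b, ?_⟩
  intro R _ _ c
  rw [← 𝔅.crd_map (aeval c), pol_map]
  congr 2
  funext i
  rw [tfrm_map]
  congr 1
  funext p
  exact aeval_X c p

end

end Pool.Agent.SQ
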