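import Pool.Agent.Helper68.BU.Defs
import Pool.Agent.Helper4.AZ.HNF

/-!
# BU, block BU5: subspaces with almost minimal heights, and the limit of the lists
-/

set_option autoImplicit false

namespace Pool.Agent.SQ

open NumberField Filter Module
open Pool.Agent.Helper64.Vojta (Pl nv sn above)
open Pool.Agent.V2

universe u

section

variable {k : Type u} [Field k] [NumberField k]

theorem exists_nm {n : ℕ} {A : Type} [Fintype A] (W : A → Submodule k (Fin (n + 1) → k)) :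
    ∃ L : Finset (Fin (n + 1) → k), (∀ q ∈ L, q ≠ 0) ∧ L.card ≤ (n + 2) ^ (Fintype.card A + 1) ∧
      ∀ U : Submodule k (Fin (n + 1) → k), U ≠ ⊥ → ∃ U' : Submodule k (Fin (n + 1) → k),
        vcz W U' = vcz W U ∧ cxz U' ≤ cxz U + 1 ∧ ∃ q ∈ L, q ∈ U' := by
  classical
  have hnn : ∀ U : Submodule k (Fin (n + 1) → k), 0 ≤ cxz U := by
    intro U
    obtain ⟨β, hβ⟩ := exists_spz U
    refine le_csInf ⟨_, β, hβ, rfl⟩ ?_
    rintro _ ⟨b, -, rfl⟩
    exact hsz_nonneg b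
  have hle : ∀ U : Submodule k (Fin (n + 1) → k), finrank k U < n + 2 := by
    intro U
    have := Submodule.finrank_le U
    rw [Module.finrank_fin_fun] at this
    omega
  let v : Submodule k (Fin (n + 1) → k) → Fin (n + 2) × (A → Fin (n + 2)) := fun U =>
    (⟨finrank k U, hle U⟩, fun i => ⟨finrank k ↥(U ⊓ W i), hle _⟩)
  have hv : ∀ U U', v U = v U' → vcz W U = vcz W U' := by
    intro U U' h
    refine Prod.ext ?_ (funext fun i => ?_)
    · exact congrArg (fun t => (t.1 : ℕ)) h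
    · exact congrArg (fun t => (t.2 i : ℕ)) h
  have hch : ∀ t : Fin (n + 2) × (A → Fin (n + 2)), ∃ q : Fin (n + 1) → k, q ≠ 0 ∧
      ∀ U : Submodule k (Fin (n + 1) → k), U ≠ ⊥ → v U = t → ∃ U' : Submodule k (Fin (n + 1) → k),
        vcz W U' = vcz W U ∧ cxz U' ≤ cxz U + 1 ∧ q ∈ U' := by
    intro t
    by_cases h : ∃ U : Submodule k (Fin (n + 1) → k), U ≠ ⊥ ∧ v U = t
    · obtain ⟨U0, hU0, hU0t⟩ := h
      obtain ⟨_, ⟨U1, hU1, hU1t, rfl⟩, h2⟩ := exists_lt_of_csInf_lt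
        (s := {c | ∃ U : Submodule k (Fin (n + 1) → k), U ≠ ⊥ ∧ v U = t ∧ cxz U = c}) ⟨_, U0, hU0, hU0t, rfl⟩ (lt_add_one _)
      obtain ⟨q, hq, hq0⟩ := Submodule.exists_mem_ne_zero_of_ne_bot hU1
      refine ⟨q, hq0, fun U hU hUt => ⟨U1, hv _ _ (hU1t.trans hUt.symm), ?_, hq⟩⟩
      have h3 : sInf {c | ∃ U : Submodule k (Fin (n + 1) → k), U ≠ ⊥ ∧ v U = t ∧ cxz U = c} ≤ cxz U := by
        refine csInf_le ⟨0, ?_⟩ ⟨U, hU, hUt, rfl⟩
        rintro _ ⟨X, -, -, rfl⟩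
        exact hnn X
      linarith
    · refine ⟨fun _ => 1, fun h0 => one_ne_zero (congrFun h0 0), fun U hU hUt => absurd ⟨U, hU, hUt⟩ h⟩
  choose q hq0 hq using hch
  refine ⟨Finset.univ.image q, ?_, ?_, ?_⟩
  · intro x hx
    obtain ⟨t, -, rfl⟩ := Finset.mem_image.1 hx
    exact hq0 t
  · refine Finset.card_image_le.trans (le_of_eq ?_)
    rw [Finset.card_univ, Fintype.card_prod, Fintype.card_fun, Fintype.card_fin, pow_succ, mul_comm]
  · intro U hU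
    obtain ⟨U', h1, h2, h3⟩ := hq (v U) U hU rfl
    exact ⟨U', h1, h2, q (v U), Finset.mem_image_of_mem _ (Finset.mem_univ _), h3⟩

variable {G : Type} [Group G] [Fintype G] {D : SqG k G} (F : GFG D)

/-- `L a` is the list of `exists_nm` for `W a` -/
theorem lim_hn {n : ℕ} {A : Type} [Fintype A] (W : A → Submodule (slk F) (Fin (n + 1) → slk F))
    (Wr : ℕ → A → Submodule k (Fin (n + 1) → k)) (hW : ∀ i, ∀ᶠ a in (D.U : Filter ℕ), Gm (trs F) (W i) a = Wr a i)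
    (L : ℕ → Finset (Fin (n + 1) → k))
    (hL : ∀ a, ∀ U : Submodule k (Fin (n + 1) → k), U ≠ ⊥ → ∃ U' : Submodule k (Fin (n + 1) → k),
        vcz (Wr a) U' = vcz (Wr a) U ∧ cxz U' ≤ cxz U + 1 ∧ ∃ q ∈ L a, q ∈ U') (ρ : A → ℝ) :
    ∃ U : Submodule (slk F) (Fin (n + 1) → slk F), U ≠ ⊥ ∧
      (∀ E : Submodule (slk F) (Fin (n + 1) → slk F), (∑ i, ρ i * finrank (slk F) ↥(E ⊓ W i)) * finrank (slk F) U ≤
        (∑ i, ρ i * finrank (slk F) ↥(U ⊓ W i)) * finrank (slk F) E) ∧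
      ∀ᶠ a in (D.U : Filter ℕ), ∃ q ∈ L a, q ∈ Gm (trs F) U a := by
  classical
  obtain ⟨UU, hU0, hU⟩ := hnf_z W
  obtain ⟨U0, hU0m, hmax⟩ := hU ρ
  have hne : U0 ≠ ⊥ := hU0 U0 hU0m
  have h1 : ∀ᶠ a in (D.U : Filter ℕ), Gm (trs F) U0 a ≠ ⊥ := by
    have h2 := (gm_lt (trs F) ⊥ U0).1 (bot_lt_iff_ne_bot.2 hne)
    filter_upwards [h2] with a h3
    exact ne_bot_of_gt h3
  have h2 : ∀ᶠ a in (D.U : Filter ℕ), ∃ X : Submodule k (Fin (n + 1) → k),
      vcz (Wr a) X = vcz (Wr a) (Gm (trs F) U0 a) ∧ cxz X ≤ cxz (Gm (trs F) U0 a) + 1 ∧ ∃ q ∈ L a, q ∈ X := by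
    filter_upwards [h1] with a h3
    exact hL a _ h3
  obtain ⟨X, hX⟩ := h2.choice
  obtain ⟨U, hUX⟩ := exists_gm F X (by
    intro ε hε
    filter_upwards [hX, cxz_gm F U0 (half_pos hε), D.H1.eventually_ge_atTop (2 / ε)] with a h3 h4 h5
    rw [div_le_iff₀ hε] at h5
    have := h3.2.1
    linarith)
  have hW' : ∀ᶠ a in (D.U : Filter ℕ), ∀ i, Gm (trs F) (W i) a = Wr a i := eventually_all.2 hW
  have hUW : ∀ᶠ a in (D.U : Filter ℕ), ∀ i, finrank k (Gm (trs F) (U ⊓ W i) a) = finrank (slk F) ↥(U ⊓ W i) :=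
    eventually_all.2 fun i => gm_finrank (trs F) _
  have hU0W : ∀ᶠ a in (D.U : Filter ℕ), ∀ i, finrank k (Gm (trs F) (U0 ⊓ W i) a) = finrank (slk F) ↥(U0 ⊓ W i) :=
    eventually_all.2 fun i => gm_finrank (trs F) _
  have hUi : ∀ᶠ a in (D.U : Filter ℕ), ∀ i, Gm (trs F) (U ⊓ W i) a = Gm (trs F) U a ⊓ Gm (trs F) (W i) a :=
    eventually_all.2 fun i => gm_inf (trs F) _ _
  have hU0i : ∀ᶠ a in (D.U : Filter ℕ), ∀ i, Gm (trs F) (U0 ⊓ W i) a = Gm (trs F) U0 a ⊓ Gm (trs F) (W i) a :=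
    eventually_all.2 fun i => gm_inf (trs F) _ _
  have hvec : finrank (slk F) U = finrank (slk F) U0 ∧
      ∀ i, finrank (slk F) ↥(U ⊓ W i) = finrank (slk F) ↥(U0 ⊓ W i) := by
    obtain ⟨a, h3, h4, h5, h6, h7, h8, h9, h10, h11⟩ := (hX.and (hUX.and (hW'.and (hUW.and (hU0W.and (hUi.and (hU0i.and
      ((gm_finrank (trs F) U).and (gm_finrank (trs F) U0))))))))).exists
    have h12 := h3.1
    rw [← h4] at h12
    refine ⟨?_, fun i => ?_⟩
    · rw [← h10, ← h11]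
      exact congrArg Prod.fst h12
    · rw [← h6 i, ← h7 i, h8 i, h9 i, h5 i]
      exact congrFun (congrArg Prod.snd h12) i
  refine ⟨U, ?_, ?_, ?_⟩
  · intro h
    have h3 := hvec.1
    rw [h, finrank_bot] at h3
    exact hne (Submodule.finrank_eq_zero.1 h3.symm)
  · intro E
    have h3 := hmax E
    unfold wtz at h3
    rw [hvec.1]
    simp only [hvec.2]
    exact h3
  · filter_upwards [hX, hUX] with a h3 h4
    rw [h4]
    exact h3.2.2

end

end Pool.Agent.SQ
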