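import Pool.Agent.Helper68.BU.Defs
import Pool.Agent.Helper42.SQ.OMs

/-!
# BU, block BU6, first part: the germs of the values of forms with slow coefficients
-/

set_option autoImplicit false

namespace Pool.Agent.SQ

open NumberField Filter Module MvPolynomial
open Pool.Agent.Helper64.Vojta (Pl nv sn above)
open Pool.Agent.V2
open Pool.Agent.Chart (fld dg crd hgt)

universe u

section

variable {k : Type u} [Field k] [NumberField k] {G : Type} [Group G] [Fintype G] {D : SqG k G} (F : GFG D)

/-- the germ of the values of a polynomial -/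
theorem trs_aeval {σ : Type*} (cs : σ → slk F) (c : ℕ → σ → k)
    (hc : ∀ t, ∀ᶠ a in (D.U : Filter ℕ), (trs F).rp (cs t) a = c a t) (P : MvPolynomial σ k) :
    ∀ᶠ a in (D.U : Filter ℕ), (trs F).rp (aeval cs P) a = aeval (c a) P := by
  induction P using MvPolynomial.induction_on with
  | C r =>
    have h1 := trs_eq F (algebraMap k (slk F) r) (fun _ => r) (F.rp_alg r)
    filter_upwards [h1] with a h2
    rw [aeval_C, aeval_C, h2]
    rfl
  | add p q hp hq =>
    filter_upwards [hp, hq, (trs F).add (aeval cs p) (aeval cs q)] with a h1 h2 h3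
    rw [map_add, map_add, h3, h1, h2]
  | mul_X p j hp =>
    filter_upwards [hp, hc j, (trs F).mul (aeval cs p) (cs j)] with a h1 h2 h3
    rw [map_mul, map_mul, aeval_X, aeval_X, h3, h1, h2]

/-- slow coefficients have germs -/
theorem exists_cs {σ : Type*} (c : ℕ → σ → k) (hc : ∀ t, SlowG D fun a => algebraMap k (D.L a) (c a t)) :
    ∃ cs : σ → slk F, ∀ t, ∀ᶠ a in (D.U : Filter ℕ), (trs F).rp (cs t) a = c a t := by
  have h1 : ∀ t, ∃ z : slk F, ∀ᶠ a in (D.U : Filter ℕ), (trs F).rp z a = c a t := by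
    intro t
    obtain ⟨w, hw⟩ := F.rp_surj (fun a => algebraMap k (D.L a) (c a t)) ⟨1, hc t 1 one_pos⟩
    refine ⟨⟨w, mem_slk.2 ⟨fun g => ?_, (hc t).congr hw⟩⟩, trs_eq F _ _ hw⟩
    apply F.rp_inj
    filter_upwards [F.rp_s g w, hw] with a h2 h3
    rw [h2, h3]
    exact AlgEquiv.commutes _ _
  choose cs h2 using h1
  exact ⟨cs, h2⟩

variable {N d q : ℕ} (y : ∀ a, Fin (N + 1) → D.L a) (ξ : Fin (N + 1) → F.K)
  (hξ : ∀ j, ∀ᶠ a in (D.U : Filter ℕ), F.rp (ξ j) a = y a j)

include hξ

/-- the germ of the values of the forms -/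
theorem rp_tfrm (cs : Fin q × Mns N d → slk F) (c : ℕ → Fin q × Mns N d → k)
    (hc : ∀ t, ∀ᶠ a in (D.U : Filter ℕ), (trs F).rp (cs t) a = c a t) (i : Fin q) :
    ∀ᶠ a in (D.U : Filter ℕ), F.rp (aeval ξ (tfrm cs i)) a = aeval (y a) (tfrm (c a) i) := by
  classical
  have hmon : ∀ μ : Fin (N + 1) →₀ ℕ, ∀ᶠ a in (D.U : Filter ℕ),
      F.rp (aeval ξ (monomial μ (1 : k))) a = aeval (y a) (monomial μ (1 : k)) := by
    intro μ
    generalize monomial μ (1 : k) = P
    induction P using MvPolynomial.induction_on with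
    | C r =>
      filter_upwards [F.rp_alg r] with a h1
      rw [aeval_C, aeval_C, h1]
    | add p q hp hq =>
      filter_upwards [hp, hq, F.rp_add (aeval ξ p) (aeval ξ q)] with a h1 h2 h3
      rw [map_add, map_add, h3, h1, h2]
    | mul_X p j hp =>
      filter_upwards [hp, hξ j, F.rp_mul (aeval ξ p) (ξ j)] with a h1 h2 h3
      rw [map_mul, map_mul, aeval_X, aeval_X, h3, h1, h2]
  have h1 : ∀ μ : Mns N d, ∀ᶠ a in (D.U : Filter ℕ),
      F.rp (aeval ξ (monomial μ.1 (cs (i, μ)))) a = aeval (y a) (monomial μ.1 (c a (i, μ))) := by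
    intro μ
    have e1 : aeval ξ (monomial μ.1 (cs (i, μ))) = (cs (i, μ) : F.K) * aeval ξ (monomial μ.1 (1 : k)) := by
      rw [aeval_monomial, aeval_monomial, map_one, one_mul]
      rfl
    filter_upwards [hmon μ.1, trs_rp F (cs (i, μ)), hc (i, μ), F.rp_mul (cs (i, μ) : F.K) (aeval ξ (monomial μ.1 (1 : k)))]
      with a h2 h3 h4 h5
    rw [e1, h5, h2, h3, h4, aeval_monomial, aeval_monomial, map_one, one_mul]
  have h2 : ∀ s : Finset (Mns N d), ∀ᶠ a in (D.U : Filter ℕ),
      F.rp (∑ μ ∈ s, aeval ξ (monomial μ.1 (cs (i, μ)))) a = ∑ μ ∈ s, aeval (y a) (monomial μ.1 (c a (i, μ))) := by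
    intro s
    induction s using Finset.induction_on with
    | empty =>
      filter_upwards [F.rp_alg 0] with a h3
      rw [Finset.sum_empty, Finset.sum_empty]
      rw [map_zero, map_zero] at h3
      exact h3
    | insert μ s hμ ih =>
      filter_upwards [h1 μ, ih, F.rp_add (aeval ξ (monomial μ.1 (cs (i, μ))))
        (∑ μ ∈ s, aeval ξ (monomial μ.1 (cs (i, μ))))] with a h3 h4 h5
      rw [Finset.sum_insert hμ, Finset.sum_insert hμ, h5, h3, h4]
  filter_upwards [h2 Finset.univ] with a h3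
  rw [tfrm, tfrm, map_sum, map_sum, h3]

/-- powers of the space of the linear forms -/
theorem pow_nonneg_s (hy : Ptg D y) (δ : ℕ) (v : Pl k) (g : G) (z : F.K)
    (hz : z ∈ (Submodule.span (slk F) (Set.range ξ)) ^ δ) (hz0 : z ≠ 0) : 0 ≤ omg F v (F.s g z) + δ * cg D y v g := by
  have hω : RV (slk F) fun x => omg F v (ss F g x) := (omg_RVs F v).comp (ss F g)
  have key : ∀ δ : ℕ, (Submodule.span (slk F) (Set.range ξ)) ^ δ ≤ lev hω (-(δ * cg D y v g)) := by
    intro δ
    induction δ with
    | zero =>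
      rw [pow_zero, Submodule.one_le]
      right
      rw [Nat.cast_zero, zero_mul, neg_zero]
      have h1 := hω.mul 1 1 one_ne_zero one_ne_zero
      rw [mul_one] at h1
      linarith
    | succ δ ih =>
      rw [pow_succ, Submodule.mul_le]
      intro m hm n hn
      by_cases hm0 : m = 0
      · rw [hm0, zero_mul]
        exact Submodule.zero_mem _
      by_cases hn0 : n = 0
      · rw [hn0, mul_zero]
        exact Submodule.zero_mem _
      right
      have h1 : -(δ * cg D y v g) ≤ omg F v (ss F g m) := (ih hm).resolve_left hm0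
      have h2 := omgs_nonneg F y hy ξ hξ v g n hn hn0
      have h3 : omg F v (ss F g (m * n)) = omg F v (ss F g m) + omg F v (ss F g n) := hω.mul m n hm0 hn0
      show -(((δ + 1 : ℕ) : ℝ) * cg D y v g) ≤ omg F v (ss F g (m * n))
      rw [h3]
      push_cast
      linarith
  have h1 : -(δ * cg D y v g) ≤ omg F v (ss F g z) := (key δ hz).resolve_left hz0
  rw [ss_apply] at h1
  linarith

/-- a form of degree `δ` over the slow germs -/
theorem aeval_mem_pow (p : MvPolynomial (Fin (N + 1)) (slk F)) {δ : ℕ} (hp : p.IsHomogeneous δ) :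
    aeval ξ p ∈ (Submodule.span (slk F) (Set.range ξ)) ^ δ := by
  have hprod : ∀ (s : Finset (Fin (N + 1))) (e : Fin (N + 1) → ℕ),
      ∏ j ∈ s, ξ j ^ e j ∈ (Submodule.span (slk F) (Set.range ξ)) ^ (∑ j ∈ s, e j) := by
    intro s e
    classical
    induction s using Finset.induction_on with
    | empty =>
      rw [Finset.prod_empty, Finset.sum_empty, pow_zero]
      exact Submodule.one_le.1 le_rfl
    | insert j s hj ih =>
      rw [Finset.prod_insert hj, Finset.sum_insert hj, pow_add]
      exact Submodule.mul_mem_mul (Submodule.pow_mem_pow _ (Submodule.subset_span (Set.mem_range_self j)) _) ih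
  rw [p.as_sum, map_sum]
  refine Submodule.sum_mem _ fun μ hμ => ?_
  have h1 : ∑ j, μ j = δ := by
    have h2 := hp (mem_support_iff.1 hμ)
    rw [Finsupp.weight_apply, Finsupp.sum_fintype _ _ (fun j => by simp)] at h2
    simpa using h2
  rw [aeval_monomial, Finsupp.prod_fintype _ _ (fun j => pow_zero _), ← h1, ← Algebra.smul_def]
  exact Submodule.smul_mem _ _ (hprod Finset.univ μ)

end

end Pool.Agent.SQ
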